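import Mathlib

set_option autoImplicit false
open Finset Filter Topology

namespace Pool.Agent.H.MP_677ad5_pr

section P
variable {E : Type} [Fintype E] [DecidableEq E]

open Classical in
noncomputable def pr (p : ℝ) (A : Set (E → Bool)) : ℝ :=
  ∑ ω, if ω ∈ A then ∏ e, (if ω e then p else 1 - p) else 0

def cy (O C : Finset E) : Set (E → Bool) := {ω | (∀ e ∈ O, ω e = true) ∧ ∀ e ∈ C, ω e = false}

variable {p : ℝ}

omit [DecidableEq E] in
lemma wt0 (h0 : 0 ≤ p) (h1 : p ≤ 1) (ω : E → Bool) : 0 ≤ ∏ e, (if ω e then p else 1 - p) :=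
  prod_nonneg fun e _ => by split_ifs <;> linarith

lemma pr_cy (O C : Finset E) (h : Disjoint O C) : pr p (cy O C) = p ^ O.card * (1 - p) ^ C.card := by
  classical
  have e1 : ∀ ω : E → Bool, (if ω ∈ cy O C then ∏ e, (if ω e then p else 1 - p) else 0) =
      ∏ e, (if (e ∈ O → ω e = true) ∧ (e ∈ C → ω e = false) then (if ω e then p else 1 - p)
        else 0) := fun ω => by
    rw [prod_ite_zero]; simp [cy, forall_and]
  have e2 := Finset.prod_univ_sum (fun _ : E => (univ : Finset Bool))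
    (fun e b => if (e ∈ O → b = true) ∧ (e ∈ C → b = false) then (if b then p else 1 - p) else 0)
  rw [Fintype.piFinset_univ] at e2
  unfold pr
  rw [sum_congr rfl fun ω _ => e1 ω, ← e2]
  have e3 : ∀ e, (∑ b : Bool, if (e ∈ O → b = true) ∧ (e ∈ C → b = false) then
      (if b then p else 1 - p) else 0) = (if e ∈ O then p else 1) * if e ∈ C then 1 - p else 1 := by
    intro e
    have : e ∈ O → e ∉ C := fun he => disjoint_left.1 h he
    by_cases h1 : e ∈ O <;> by_cases h2 : e ∈ C <;> simp_all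
  simp only [e3, prod_mul_distrib, prod_ite_mem, univ_inter, prod_const]

lemma pr_mono (h0 : 0 ≤ p) (h1 : p ≤ 1) {A B : Set (E → Bool)} (h : A ⊆ B) : pr p A ≤ pr p B :=
  sum_le_sum fun ω _ => by
    have := wt0 h0 h1 ω
    by_cases ha : ω ∈ A
    · simp [ha, h ha]
    · simp only [ha, if_false]; split_ifs <;> simp [this]

lemma pr_cy_le (h0 : 0 ≤ p) (h1 : p ≤ 1) (O C : Finset E) :
    pr p (cy O C) ≤ p ^ O.card * (1 - p) ^ C.card := by
  by_cases h : Disjoint O C
  · exact (pr_cy O C h).le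
  · obtain ⟨e, a, b⟩ := not_disjoint_iff.1 h
    have : cy O C = ∅ := Set.eq_empty_of_forall_notMem fun ω hω => by
      have := (hω.1 e a).symm.trans (hω.2 e b); simp at this
    have h2 : 0 ≤ 1 - p := by linarith
    rw [this]; simp only [pr, Set.mem_empty_iff_false, if_false, sum_const_zero]; positivity

lemma pr_compl (A : Set (E → Bool)) : pr p Aᶜ = 1 - pr p A := by
  have := pr_cy (p := p) (∅ : Finset E) ∅ (by simp)
  simp only [cy, card_empty, pow_zero, mul_one] at this
  rw [← this]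
  unfold pr
  rw [← sum_sub_distrib]
  refine sum_congr rfl fun ω _ => ?_
  by_cases h : ω ∈ A <;> simp [h]

lemma ce (h0 : 0 ≤ p) (h1 : p ≤ 1) {I : Type} [Fintype I] (A : I → Set (E → Bool)) :
    (∑ a, pr p (A a)) ^ 2 ≤ pr p (⋃ a, A a) * ∑ a, ∑ b, pr p (A a ∩ A b) := by
  classical
  set w : (E → Bool) → ℝ := fun ω => ∏ e, (if ω e then p else 1 - p) with hw
  set X : (E → Bool) → ℝ := fun ω => ∑ a, if ω ∈ A a then 1 else 0 with hX
  have e1 : ∑ a, pr p (A a) = ∑ ω, X ω * w ω := by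
    unfold pr; rw [sum_comm]
    refine sum_congr rfl fun ω _ => ?_
    simp only [hX, sum_mul, ite_mul, one_mul, zero_mul]; rfl
  have e2 : ∑ a, ∑ b, pr p (A a ∩ A b) = ∑ ω, X ω ^ 2 * w ω := by
    unfold pr
    simp only [sum_comm (s := (univ : Finset I)) (t := (univ : Finset (E → Bool)))]
    refine sum_congr rfl fun ω _ => ?_
    simp only [hX, sq]
    rw [sum_mul_sum]
    simp only [sum_mul]
    refine sum_congr rfl fun a _ => sum_congr rfl fun b _ => ?_
    by_cases ha : ω ∈ A a <;> by_cases hb : ω ∈ A b <;> simp [ha, hb, hw]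
  rw [e1, e2]
  refine sum_sq_le_sum_mul_sum_of_sq_le_mul _ (fun ω _ => ?_) (fun ω _ => ?_) fun ω _ => ?_
  · split_ifs; exacts [wt0 h0 h1 ω, le_rfl]
  · exact mul_nonneg (sq_nonneg _) (wt0 h0 h1 ω)
  · split_ifs with h
    · apply le_of_eq; simp only [hw]; ring
    · have : X ω = 0 := sum_eq_zero fun a _ => if_neg fun ha => h (Set.mem_iUnion.2 ⟨a, ha⟩)
      simp [this]

lemma pr_sum_le (h0 : 0 ≤ p) (h1 : p ≤ 1) {I : Type} (T : Finset I) (A : Set (E → Bool))
    (B : I → Set (E → Bool)) (k : ℕ)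
    (h : ∀ ω ∈ A, ∀ T' ⊆ T, (∀ b ∈ T', ω ∈ B b) → T'.card ≤ k) :
    ∑ b ∈ T, pr p (A ∩ B b) ≤ k * pr p A := by
  classical
  unfold pr
  rw [sum_comm, mul_sum]
  refine sum_le_sum fun ω _ => ?_
  by_cases ha : ω ∈ A
  · simp only [Set.mem_inter_iff, ha, true_and, if_true]
    rw [← sum_filter, sum_const, nsmul_eq_mul]
    have := wt0 h0 h1 ω
    gcongr
    exact h ω ha _ (filter_subset _ _) fun b hb => (mem_filter.1 hb).2
  · simp [ha]
end P

abbrev V (n : ℕ) := Fin n → Bool

def fl {n : ℕ} (x : V n) (i : Fin n) : V n := Function.update x i (!x i)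

lemma adj_iff {n : ℕ} (x y : V n) : hammingDist x y = 1 ↔ ∃ i, y = fl x i := by
  constructor
  · intro h
    obtain ⟨i, hi⟩ := card_eq_one.1 h
    refine ⟨i, funext fun j => ?_⟩
    have := Finset.ext_iff.1 hi j
    simp only [mem_filter, mem_univ, true_and, mem_singleton] at this
    by_cases hj : j = i
    · subst hj; have := this.2 rfl
      simp only [fl, Function.update_self]; cases h1 : x j <;> cases h2 : y j <;> simp_all
    · rw [fl, Function.update_of_ne hj]; by_contra hc; exact hj (this.1 (Ne.symm hc))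
  · rintro ⟨i, rfl⟩
    refine card_eq_one.2 ⟨i, Finset.ext fun j => ?_⟩
    by_cases hj : j = i
    · subst hj; simp [fl]
    · simp [fl, hj]

lemma fl_inj {n : ℕ} (x : V n) : Function.Injective (fl x) := fun i j h => by
  by_contra hc
  have := congrFun h i
  simp [fl, Function.update_of_ne hc] at this

abbrev I (n m : ℕ) := V n × (Fin m ↪ Fin n)

variable {n m : ℕ}

def w (a : I n m) (j : ℕ) : V n := fun i => if ∃ t : Fin m, t.1 < j ∧ a.2 t = i then !a.1 i else a.1 i

lemma w_zero (a : I n m) : w a 0 = a.1 := by funext i; simp [w]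

lemma w_succ (a : I n m) (t : Fin m) : w a (t + 1) = fl (w a t) (a.2 t) := by
  funext i
  by_cases hi : i = a.2 t
  · subst hi; simp [w, fl]
  · rw [fl, Function.update_of_ne hi]
    simp only [w]
    congr 1
    refine propext ⟨fun ⟨s, h1, h2⟩ => ⟨s, ?_, h2⟩, fun ⟨s, h1, h2⟩ => ⟨s, by omega, h2⟩⟩
    have : s ≠ t := fun h => hi (by rw [← h2, h])
    have : s.1 ≠ t.1 := fun h => this (Fin.ext h)
    omega

lemma w_inj (a : I n m) {j l : ℕ} (hj : j ≤ m) (hl : l ≤ m) (h : w a j = w a l) : j = l := by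
  wlog hlt : j < l generalizing j l
  · by_contra hc; exact hc (this hl hj h.symm (by omega)).symm
  have := congrFun h (a.2 ⟨j, by omega⟩)
  simp [w, hlt] at this

def S (a : I n m) : Finset (V n) := (range (m + 1)).image (w a)
def O (a : I n m) : Finset (Sym2 (V n)) := univ.image fun t : Fin m => s(w a t, w a (t + 1))
def Inc (a : I n m) : Finset (Sym2 (V n)) := (S a ×ˢ univ).image fun q => s(q.1, fl q.1 q.2)
def C (a : I n m) : Finset (Sym2 (V n)) := Inc a \ O a
def A (a : I n m) : Set (Sym2 (V n) → Bool) := cy (O a) (C a)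

lemma card_S (a : I n m) : (S a).card = m + 1 := by
  rw [S, card_image_of_injOn, card_range]
  intro j hj l hl h
  exact w_inj a (by simpa [Nat.lt_succ_iff] using hj) (by simpa [Nat.lt_succ_iff] using hl) h

lemma w_mem (a : I n m) {j : ℕ} (hj : j ≤ m) : w a j ∈ S a :=
  mem_image_of_mem _ (mem_range.2 (by omega))

lemma card_O (a : I n m) : (O a).card = m := by
  rw [O, card_image_of_injective, card_univ, Fintype.card_fin]
  intro s t h
  have := s.2; have := t.2
  rcases Sym2.eq_iff.1 h with ⟨h1, -⟩ | ⟨h1, h2⟩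
  · exact Fin.ext (w_inj a (by omega) (by omega) h1)
  · have := w_inj a (by omega) (by omega) h1
    have := w_inj a (by omega) (by omega) h2
    omega

lemma O_mem (a : I n m) {e : Sym2 (V n)} (he : e ∈ O a) {x : V n} (hx : x ∈ e) : x ∈ S a := by
  obtain ⟨t, -, rfl⟩ := mem_image.1 he
  have := t.2
  rcases Sym2.mem_iff.1 hx with rfl | rfl <;> exact w_mem a (by omega)

lemma card_C_le (a : I n m) : (C a).card ≤ (m + 1) * n :=
  (card_le_card sdiff_subset).trans (card_image_le.trans (by simp [card_S]))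

lemma card_C_ge (a : I n m) : (m + 1) * n ≤ (C a).card + (m + 1) ^ 2 := by
  have h1 := card_filter_add_card_filter_not (s := S a ×ˢ (univ : Finset (Fin n)))
    (fun q => fl q.1 q.2 ∈ S a)
  have h2 : ((S a ×ˢ (univ : Finset (Fin n))).filter (fun q => fl q.1 q.2 ∈ S a)).card ≤
      (S a ×ˢ S a).card := by
    refine card_le_card_of_injOn (fun q => (q.1, fl q.1 q.2)) (fun q hq => ?_) ?_
    · have := mem_filter.1 hq
      exact mem_product.2 ⟨(mem_product.1 this.1).1, this.2⟩
    · rintro ⟨x, i⟩ - ⟨y, j⟩ - h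
      obtain ⟨rfl, h⟩ := Prod.mk.inj h
      exact Prod.ext rfl (fl_inj _ h)
  have h3 : ((S a ×ˢ (univ : Finset (Fin n))).filter (fun q => ¬ fl q.1 q.2 ∈ S a)).card ≤
      (C a).card := by
    refine card_le_card_of_injOn (fun q => s(q.1, fl q.1 q.2)) (fun q hq => ?_) ?_
    · have := mem_filter.1 hq
      exact mem_sdiff.2 ⟨mem_image_of_mem _ this.1, fun h => this.2 (O_mem a h (by simp))⟩
    · rintro ⟨x, i⟩ hx ⟨y, j⟩ hy h
      have hx := mem_filter.1 hx; have hy := mem_filter.1 hy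
      rcases Sym2.eq_iff.1 h with ⟨rfl, h2⟩ | ⟨h1, h2⟩
      · exact Prod.ext rfl (fl_inj _ h2)
      · exact absurd (h1 ▸ (mem_product.1 hx.1).1) hy.2
  simp only [card_product, card_S, card_univ, Fintype.card_fin] at h1 h2
  nlinarith

def Q (n : ℕ) : SimpleGraph (V n) where
  Adj x y := hammingDist x y = 1
  symm := ⟨fun x y h => by rwa [hammingDist_comm]⟩
  loopless := ⟨fun x h => by simp at h⟩

def g (ω : Sym2 (V n) → Bool) : SimpleGraph (V n) := Q n ⊓ SimpleGraph.fromEdgeSet {e | ω e = true}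

variable {ω : Sym2 (V n) → Bool}

lemma closed {a : I n m} (h : ω ∈ A a) {x : V n} (hx : x ∈ S a) {i : Fin n}
    (ho : ω s(x, fl x i) = true) : s(x, fl x i) ∈ O a := by
  by_contra hc
  have := h.2 _ (mem_sdiff.2 ⟨mem_image.2 ⟨(x, i), by simpa using hx, rfl⟩, hc⟩)
  simp [ho] at this

lemma reach {a : I n m} (h : ω ∈ A a) (y : V n) : (g ω).Reachable a.1 y ↔ y ∈ S a := by
  constructor
  · intro hy
    rw [SimpleGraph.reachable_iff_reflTransGen] at hy
    induction hy with
    | refl => exact w_zero a ▸ w_mem a (Nat.zero_le _)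
    | tail _ h2 ih =>
      obtain ⟨i, rfl⟩ := (adj_iff _ _).1 h2.1
      exact O_mem a (closed h ih h2.2.1) (by simp)
  · intro hy
    obtain ⟨j, hj, rfl⟩ := mem_image.1 hy
    rw [mem_range] at hj
    clear hy
    induction j with
    | zero => rw [w_zero]
    | succ j ih =>
      have e : (Q n).Adj (w a j) (w a (j + 1)) := (adj_iff _ _).2 ⟨_, w_succ a ⟨j, by omega⟩⟩
      exact (ih (by omega)).trans (SimpleGraph.Adj.reachable
        ⟨e, h.1 _ (mem_image.2 ⟨⟨j, by omega⟩, mem_univ _, rfl⟩), e.ne⟩)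

lemma uniq {a b : I n m} (ha : ω ∈ A a) (hb : ω ∈ A b) (h : a.1 = b.1) : a = b := by
  have key : ∀ j, j ≤ m → ∀ l ≤ j, w a l = w b l := by
    intro j
    induction j with
    | zero => intro _ l hl; rw [Nat.le_zero.1 hl, w_zero, w_zero, h]
    | succ j ih =>
      intro hj l hl
      rcases hl.lt_or_eq with hl | rfl
      · exact ih (by omega) l (by omega)
      have e0 := ih (by omega) j le_rfl
      have e1 : w a (j + 1) = fl (w b j) (a.2 ⟨j, hj⟩) := e0 ▸ w_succ a ⟨j, hj⟩
      have e2 := ha.1 _ (mem_image.2 ⟨⟨j, hj⟩, mem_univ _, rfl⟩)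
      simp only at e2
      rw [e0, e1] at e2
      obtain ⟨s, -, hs⟩ := mem_image.1 (closed hb (w_mem b (by omega)) e2)
      have := s.2
      rw [← e1] at hs
      rcases Sym2.eq_iff.1 hs with ⟨h1, h2⟩ | ⟨h1, h2⟩
      · rw [← h2, w_inj b (by omega) (by omega) h1]
      · have a1 := w_inj b (by omega) (by omega) h2
        rw [← ih (by omega) s (by omega)] at h1
        have a2 := w_inj a (by omega) (by omega) h1
        omega
  refine Prod.ext h (Function.Embedding.ext fun t => fl_inj (w a t) ?_)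
  have := t.2
  rw [← w_succ, key m le_rfl _ (by omega), key m le_rfl _ (by omega), w_succ]

lemma near_card (a : I n m) :
    (univ.filter fun b : I n m => Disjoint (S a) (S b) ∧ ¬ Disjoint (C a) (C b)).card ≤
      (m + 1) * n * (m + 1) * n.descFactorial m := by
  have : (univ.filter fun b : I n m => Disjoint (S a) (S b) ∧ ¬ Disjoint (C a) (C b)) ⊆
      (((S a ×ˢ (univ : Finset (Fin n))) ×ˢ range (m + 1)) ×ˢ (univ : Finset (Fin m ↪ Fin n))).image
        fun q => (w (fl q.1.1.1 q.1.1.2, q.2) q.1.2, q.2) := by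
    intro b hb
    obtain ⟨hd, hn⟩ := (mem_filter.1 hb).2
    obtain ⟨e, h1, h2⟩ := not_disjoint_iff.1 hn
    obtain ⟨⟨x, i⟩, hx, rfl⟩ := mem_image.1 (mem_sdiff.1 h1).1
    obtain ⟨⟨y, l⟩, hy, h⟩ := mem_image.1 (mem_sdiff.1 h2).1
    have hx := (mem_product.1 hx).1
    have hy := (mem_product.1 hy).1
    rcases Sym2.eq_iff.1 h with ⟨h3, -⟩ | ⟨h3, -⟩
    · exact absurd (h3 ▸ hy) (disjoint_left.1 hd hx)
    obtain ⟨j, hj, hj2⟩ := mem_image.1 hy
    refine mem_image.2 ⟨(((x, i), j), b.2), by simp_all, Prod.ext ?_ rfl⟩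
    simp only at h3 hj2 ⊢
    rw [← h3, ← hj2]
    funext i; simp only [w]; split_ifs <;> simp
  refine (card_le_card this).trans (card_image_le.trans (le_of_eq ?_))
  simp [card_S]

lemma inter_card {a b : I n m} (hd : Disjoint (S a) (S b)) : (C a ∩ C b).card ≤ (m + 1) ^ 2 := by
  have : C a ∩ C b ⊆ (S a ×ˢ S b).image fun q => s(q.1, q.2) := by
    intro e he
    obtain ⟨h1, h2⟩ := mem_inter.1 he
    obtain ⟨⟨x, i⟩, hx, rfl⟩ := mem_image.1 (mem_sdiff.1 h1).1
    obtain ⟨⟨y, l⟩, hy, h⟩ := mem_image.1 (mem_sdiff.1 h2).1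
    have hx := (mem_product.1 hx).1
    have hy := (mem_product.1 hy).1
    rcases Sym2.eq_iff.1 h with ⟨h3, -⟩ | ⟨h3, -⟩
    · exact absurd (h3 ▸ hy) (disjoint_left.1 hd hx)
    exact mem_image.2 ⟨(x, y), mem_product.2 ⟨hx, hy⟩, by simp only at h3 ⊢; rw [h3]⟩
  refine (card_le_card this).trans (card_image_le.trans (le_of_eq ?_))
  simp [card_S, sq]

variable {p : ℝ}

lemma pr_A (a : I n m) : pr p (A a) = p ^ m * (1 - p) ^ (C a).card := by
  rw [A, pr_cy (O a) (C a) disjoint_sdiff, card_O]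

lemma pair (h0 : 0 ≤ p) (h1 : p ≤ 1) {a b : I n m} (hd : Disjoint (S a) (S b)) :
    pr p (A a ∩ A b) ≤ p ^ (m + m) * (1 - p) ^ (C a ∪ C b).card := by
  have e : A a ∩ A b = cy (O a ∪ O b) (C a ∪ C b) := by
    ext ω; simp only [A, cy, Set.mem_inter_iff, Set.mem_ofPred_eq, mem_union, or_imp, forall_and]
    tauto
  have e2 : Disjoint (O a) (O b) := disjoint_left.2 fun e h1 h2 =>
    disjoint_left.1 hd (O_mem a h1 (Sym2.out_fst_mem e)) (O_mem b h2 (Sym2.out_fst_mem e))
  have := pr_cy_le h0 h1 (O a ∪ O b) (C a ∪ C b)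
  rwa [card_union_of_disjoint e2, card_O, card_O, ← e] at this

lemma second (h0 : 0 < p) (h1 : p < 1) (hm : m ≤ n) :
    pr p (⋃ a : I n m, A a)ᶜ ≤ (m + 1) * n * (m + 1) / (2 ^ n * (1 - p) ^ (3 * (m + 1) ^ 2)) +
      (m + 1) / (2 ^ n * n.descFactorial m * (p ^ m * (1 - p) ^ ((m + 1) * n))) := by
  have hq : 0 < 1 - p := by linarith
  have hq1 : 1 - p ≤ 1 := by linarith
  set lo := p ^ m * (1 - p) ^ ((m + 1) * n) with hlo
  set N : ℝ := ((n.descFactorial m : ℕ) : ℝ) with hN
  have hN0 : 0 < N := by rw [hN]; exact_mod_cast Nat.descFactorial_pos.2 hm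
  set μ := ∑ a : I n m, pr p (A a) with hμ
  have cI : (Fintype.card (I n m) : ℝ) = 2 ^ n * N := by simp [hN]
  have lo0 : 0 < lo := by positivity
  have e1 : 2 ^ n * N * lo ≤ μ := by
    rw [← cI, ← nsmul_eq_mul, ← card_univ, ← sum_const]
    refine sum_le_sum fun a _ => ?_
    rw [pr_A]
    exact mul_le_mul_of_nonneg_left (pow_le_pow_of_le_one hq.le hq1 (card_C_le a)) (by positivity)
  set K := (1 - p) ^ (3 * (m + 1) ^ 2) with hK
  have K0 : 0 < K := by positivity
  have e2 : ∀ a : I n m, ∑ b, pr p (A a ∩ A b) ≤ pr p (A a) * μ +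
      (m + 1) * n * (m + 1) * N * (lo ^ 2 / K) + (m + 1) * pr p (A a) := fun a => by
    classical
    rw [← sum_filter_add_sum_filter_not univ (fun b : I n m => Disjoint (S a) (S b)),
      ← sum_filter_add_sum_filter_not _ (fun b : I n m => Disjoint (C a) (C b)), filter_filter,
      filter_filter]
    refine add_le_add (add_le_add ?_ ?_) ?_
    · rw [hμ, mul_sum]
      refine le_trans (sum_le_sum fun b hb => ?_) (sum_le_sum_of_subset_of_nonneg (subset_univ _)
        fun b _ _ => by rw [pr_A, pr_A]; positivity)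
      have := (mem_filter.1 hb).2
      refine (pair h0.le h1.le this.1).trans (le_of_eq ?_)
      rw [card_union_of_disjoint this.2, pr_A, pr_A]; ring
    · refine (sum_le_card_nsmul _ _ (lo ^ 2 / K) fun b hb => ?_).trans ?_
      · have := (mem_filter.1 hb).2
        refine (pair h0.le h1.le this.1).trans ?_
        rw [le_div_iff₀ K0, mul_assoc, hK, ← pow_add, hlo, mul_pow, ← pow_mul, ← pow_mul,
          show m * 2 = m + m by ring]
        refine mul_le_mul_of_nonneg_left (pow_le_pow_of_le_one hq.le hq1 ?_) (by positivity)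
        have a1 := card_union_add_card_inter (C a) (C b)
        have a2 := inter_card this.1
        have a3 := card_C_ge a
        have a4 := card_C_ge b
        omega
      · rw [nsmul_eq_mul]; gcongr
        rw [hN]; exact_mod_cast near_card a
    · have := pr_sum_le h0.le h1.le (univ.filter fun b : I n m => ¬ Disjoint (S a) (S b)) (A a) A
        (m + 1) fun ω ha T' hT hb => by
          rw [← card_S a]
          refine card_le_card_of_injOn Prod.fst (fun b hb' => ?_)
            fun b hb' c hc h => uniq (hb b hb') (hb c hc) h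
          obtain ⟨x, h1, h2⟩ := not_disjoint_iff.1 (mem_filter.1 (hT hb')).2
          exact (reach ha _).1 (((reach ha x).2 h1).trans ((reach (hb b hb') x).2 h2).symm)
      exact_mod_cast this
  have e3 := sum_le_sum (s := univ) fun a _ => e2 a
  simp only [sum_add_distrib, ← sum_mul, ← mul_sum, ← hμ, sum_const, card_univ, nsmul_eq_mul,
    cI] at e3
  have e4 := ce h0.le h1.le (A (n := n) (m := m))
  rw [← hμ] at e4
  have μ0 : 0 < μ := lt_of_lt_of_le (by positivity) e1
  set η := (m + 1) * n * (m + 1) / (2 ^ n * K) + (m + 1) / (2 ^ n * N * lo) with hη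
  have η0 : 0 ≤ η := by positivity
  have e5 : ∑ a : I n m, ∑ b : I n m, pr p (A a ∩ A b) ≤ μ ^ 2 * (1 + η) := by
    refine e3.trans ?_
    have b1 : (2 ^ n * N * lo) ^ 2 * ((m + 1) * n * (m + 1) / (2 ^ n * K)) ≤
      μ ^ 2 * ((m + 1) * n * (m + 1) / (2 ^ n * K)) := by gcongr
    have b2 : μ * (2 ^ n * N * lo) * ((m + 1) / (2 ^ n * N * lo)) ≤
      μ * μ * ((m + 1) / (2 ^ n * N * lo)) := by gcongr
    rw [show μ * (2 ^ n * N * lo) * ((m + 1) / (2 ^ n * N * lo)) = (m + 1) * μ by field_simp] at b2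
    rw [show (2 ^ n * N * lo) ^ 2 * ((m + 1) * n * (m + 1) / (2 ^ n * K)) =
      2 ^ n * N * ((m + 1) * n * (m + 1) * N * (lo ^ 2 / K)) by field_simp] at b1
    rw [hη]; nlinarith
  have u0 : 0 ≤ pr p (⋃ a : I n m, A a) := by
    have := pr_mono h0.le h1.le (Set.empty_subset (⋃ a : I n m, A a))
    simpa [pr] using this
  have u1 : pr p (⋃ a : I n m, A a) ≤ 1 := by
    have := pr_mono h0.le h1.le (Set.empty_subset (⋃ a : I n m, A a)ᶜ)
    rw [pr_compl] at this
    have e : pr p (∅ : Set (Sym2 (V n) → Bool)) = 0 := by simp [pr]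
    linarith
  rw [pr_compl]
  have e6 := e4.trans (mul_le_mul_of_nonneg_left e5 u0)
  have e7 : 1 ≤ pr p (⋃ a : I n m, A a) * (1 + η) := by
    have : 0 < μ ^ 2 := by positivity
    nlinarith
  nlinarith

lemma numer (h0 : 0 < p) (h1 : p ^ 2 * n ≤ 1) (h2 : Real.exp 12 + 400 ≤ p * n)
    (hm : m = ⌊-1 / Real.logb 2 (1 - p)⌋₊) : p < 1 ∧ m + 1 ≤ n ∧
    (m + 1) * n * (m + 1) / (2 ^ n * (1 - p) ^ (3 * (m + 1) ^ 2)) ≤ (n:ℝ) ^ 3 * Real.exp (-(n / 2)) ∧
    (m + 1) / (2 ^ n * n.descFactorial m * (p ^ m * (1 - p) ^ ((m + 1) * n))) ≤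
      Real.exp 12 / (p * n) := by
  have e12 := Real.exp_pos 12
  have hn0 : (0:ℝ) ≤ n := Nat.cast_nonneg n
  have hp : p ≤ 1 / 400 := by nlinarith
  have hq : 0 < 1 - p := by linarith
  have l1 : Real.log (1 - p) ≤ -p := by have := Real.log_le_sub_one_of_pos hq; linarith
  have l2 : -(2 * p) ≤ Real.log (1 - p) := by
    have := Real.one_sub_inv_le_log_of_pos hq
    have : (1 - p)⁻¹ ≤ 1 + 2 * p := by rw [inv_le_iff_one_le_mul₀ hq]; nlinarith
    linarith
  have l3 := Real.log_two_gt_d9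
  have l4 := Real.log_two_lt_d9
  set L := -Real.log (1 - p) with hL
  have L0 : 0 < L := by linarith
  have hx : -1 / Real.logb 2 (1 - p) = Real.log 2 / L := by
    rw [Real.logb, hL]; field_simp
  rw [hx] at hm
  have m1 : (m:ℝ) * L ≤ Real.log 2 := by
    rw [← le_div_iff₀ L0, hm]; exact Nat.floor_le (by positivity)
  have m2 : Real.log 2 < (m + 1) * L := by
    rw [← div_lt_iff₀ L0, hm]; exact Nat.lt_floor_add_one _
  have hm0 : (0:ℝ) ≤ m := Nat.cast_nonneg m
  have m3 : m * p ≤ 1 := by nlinarith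
  have m4 : 1 ≤ 3 * ((m + 1) * p) := by nlinarith
  have m5 : (m:ℝ) + 1 ≤ n := by nlinarith
  have qe : ∀ k : ℕ, (1 - p) ^ k = Real.exp (-(k * L)) := fun k => by
    rw [hL, mul_neg, neg_neg, Real.exp_nat_mul, Real.exp_log hq]
  have te : (2:ℝ) ^ n = Real.exp (n * Real.log 2) := by
    rw [Real.exp_nat_mul, Real.exp_log two_pos]
  refine ⟨by linarith, by exact_mod_cast m5, ?_, ?_⟩
  · rw [qe, te, ← Real.exp_add, div_eq_mul_inv, ← Real.exp_neg]
    gcongr
    · nlinarith [mul_le_mul m5 m5 (by positivity) hn0]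
    · push_cast
      have a1 : (m + 1) * L ≤ 1 := by nlinarith
      have a2 : 100 * (m + 1) ≤ (n:ℝ) := by nlinarith
      nlinarith [mul_le_mul_of_nonneg_left a1 (show (0:ℝ) ≤ m + 1 by positivity)]
  · have d1 : ((n:ℝ) - m) ^ m ≤ n.descFactorial m := by
      have := Nat.pow_sub_le_descFactorial n m
      calc _ ≤ ((n + 1 - m : ℕ) : ℝ) ^ m := by
            rw [Nat.cast_sub (by exact_mod_cast (by linarith : (m:ℝ) ≤ n + 1))]
            gcongr; linarith; push_cast; linarith
        _ ≤ _ := by exact_mod_cast this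
    have d2 : Real.exp (m * 12) ≤ n.descFactorial m * p ^ m := by
      rw [Real.exp_nat_mul]
      calc _ ≤ (((n:ℝ) - m) * p) ^ m := by gcongr; nlinarith
        _ ≤ _ := by rw [mul_pow]; gcongr
    have d3 : Real.exp (2 / p - 12) ≤
        2 ^ n * n.descFactorial m * (p ^ m * (1 - p) ^ ((m + 1) * n)) := by
      calc _ ≤ 2 ^ n * Real.exp (m * 12) * (1 - p) ^ ((m + 1) * n) := by
            rw [qe, te, ← Real.exp_add, ← Real.exp_add]
            gcongr
            push_cast
            have a1 : 2 / p ≤ 6 * (m + 1) := by rw [div_le_iff₀ h0]; linarith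
            have a2 : n * L ≤ 2 / p := by rw [le_div_iff₀ h0]; nlinarith
            nlinarith [mul_le_mul_of_nonneg_left m1 hn0]
        _ ≤ _ := by rw [mul_assoc, mul_assoc, ← mul_assoc (n.descFactorial m : ℝ)]; gcongr
    have d4 : (2 / p) ^ 2 / 2 ≤ Real.exp (2 / p) := by
      have := Real.pow_div_factorial_le_exp (2 / p) (by positivity) 2
      simpa [Nat.factorial] using this
    have pn : 0 < p * n := by linarith
    calc _ ≤ (m + 1) / Real.exp (2 / p - 12) := by gcongr
      _ ≤ (2 / p) / ((2 / p) ^ 2 / 2 / Real.exp 12) := by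
          rw [Real.exp_sub]; gcongr; rw [le_div_iff₀ h0]; nlinarith
      _ = Real.exp 12 * p := by field_simp
      _ ≤ _ := by rw [le_div_iff₀ pn]; nlinarith

end Pool.Agent.H.MP_677ad5_pr
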